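import Pool.Agent.W102.TD.Defs

set_option autoImplicit false

namespace Pool.Agent.W320.TD

open Finset Pool.Agent.W102.TD

/-- number of the words of `W` with given counts -/
def Q (W : Finset (List Bool)) (i j : ℕ) : ℕ :=
  (W.filter (fun u => u.count true = i ∧ u.count false = j)).card

theorem len_eq (u : List Bool) : u.length = u.count true + u.count false := by
  induction u with
  | nil => rfl
  | cons a u ih =>
    cases a
    · simp only [List.length_cons, List.count_cons_self, ih]
      rw [List.count_cons_of_ne (by decide)]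
      ring
    · simp only [List.length_cons, List.count_cons_self, ih]
      rw [List.count_cons_of_ne (by decide)]
      ring

theorem sum1 (W : Finset (List Bool)) (n d : ℕ) (h : ∀ u ∈ W, u.count true ≤ n) :
    ∑ u ∈ W.filter (fun u => u.count false = u.count true + d), (1 / 2 : ℚ) ^ u.length =
      ∑ k ∈ range (n + 1), (Q W k (k + d) : ℚ) * (1 / 2) ^ (2 * k + d) := by
  rw [← Finset.sum_fiberwise_of_maps_to (g := fun u : List Bool => u.count true)
    (t := range (n + 1))]
  · apply Finset.sum_congr rfl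
    intro k _
    rw [Finset.filter_filter]
    have h1 : W.filter (fun u => u.count false = u.count true + d ∧ u.count true = k) =
        W.filter (fun u => u.count true = k ∧ u.count false = k + d) := by
      apply Finset.filter_congr
      intro u _
      constructor
      · rintro ⟨h1, h2⟩
        exact ⟨h2, by rw [h1, h2]⟩
      · rintro ⟨h1, h2⟩
        exact ⟨by rw [h1, h2], h1⟩
    rw [h1, Finset.sum_congr rfl (g := fun _ => (1 / 2 : ℚ) ^ (2 * k + d)), Finset.sum_const,
      nsmul_eq_mul]
    · rfl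
    · intro u hu
      rw [Finset.mem_filter] at hu
      rw [len_eq, hu.2.1, hu.2.2]
      congr 1
      ring
  · intro u hu
    rw [Finset.mem_filter] at hu
    rw [Finset.mem_range]
    exact Nat.lt_succ_of_le (h u hu.1)

theorem qineq (h1 : UCLOSED) (h2 : DEL) (h3 : UTOP) (h4 : UEX) : QINEQ := by
  intro w hw
  set W := U w with hW
  set n := w.length with hn
  have hsub : ∀ u ∈ W, List.Sublist u w := by
    intro u hu
    rw [hW, U, Finset.mem_filter, List.mem_toFinset, List.mem_sublists] at hu
    exact hu.1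
  have hcount : ∀ u ∈ W, u.count true ≤ n := by
    intro u hu
    exact ((hsub u hu).count_le true).trans (List.count_le_length)
  have e1 := sum1 W n 0 hcount
  have e2 := sum1 W n 1 hcount
  simp only [add_zero] at e1
  have e1' : (∑ u ∈ W.filter (fun u => u.count true = u.count false), (1 / 2 : ℚ) ^ u.length) =
      ∑ k ∈ range (n + 1), (Q W k k : ℚ) * (1 / 2) ^ (2 * k) := by
    rw [← e1]
    apply Finset.sum_congr _ (fun _ _ => rfl)
    apply Finset.filter_congr
    intro u _
    exact eq_comm
  rw [e1', e2, Finset.sum_range_succ' (fun k => (Q W k k : ℚ) * (1 / 2) ^ (2 * k)),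
    Finset.sum_range_succ (fun k => (Q W k (k + 1) : ℚ) * (1 / 2) ^ (2 * k + 1))]
  have h0 : (Q W 0 0 : ℚ) ≤ 1 := by
    have : Q W 0 0 ≤ 1 := by
      unfold Q
      rw [Finset.card_le_one]
      intro a ha b hb
      rw [Finset.mem_filter] at ha hb
      have ha' : a = [] := by
        rw [← List.length_eq_zero_iff, len_eq, ha.2.1, ha.2.2]
      have hb' : b = [] := by
        rw [← List.length_eq_zero_iff, len_eq, hb.2.1, hb.2.2]
      rw [ha', hb']
    exact_mod_cast this
  have hlast : (0 : ℚ) ≤ (Q W n (n + 1) : ℚ) * (1 / 2) ^ (2 * n + 1) := by positivity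
  -- the terms
  have hdel : ∀ k, (Q W (k + 1) (k + 1) : ℚ) ≤ 2 * Q W k (k + 1) := by
    intro k
    have h5 := h2 W (fun u v => h1 w u v) k (k + 1)
    change (k + 1) * Q W (k + 1) (k + 1) ≤ (k + (k + 1) + 1) * Q W k (k + 1) at h5
    have h6 : (k + 1) * Q W (k + 1) (k + 1) ≤ (k + 1) * (2 * Q W k (k + 1)) := by
      calc (k + 1) * Q W (k + 1) (k + 1) ≤ (k + (k + 1) + 1) * Q W k (k + 1) := h5
        _ = (k + 1) * (2 * Q W k (k + 1)) := by ring
    have h7 := Nat.le_of_mul_le_mul_left h6 (Nat.succ_pos k)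
    exact_mod_cast h7
  set T : ℕ → ℚ := fun k => (1 / 2 : ℚ) ^ (2 * k + 2) *
    (2 * (Q W k (k + 1) : ℚ) - (Q W (k + 1) (k + 1) : ℚ)) with hT
  have hT0 : ∀ k, 0 ≤ T k := by
    intro k
    have := hdel k
    apply mul_nonneg (by positivity)
    linarith
  have hdiff : (∑ k ∈ range n, (Q W (k + 1) (k + 1) : ℚ) * (1 / 2) ^ (2 * (k + 1))) -
      ∑ k ∈ range n, (Q W k (k + 1) : ℚ) * (1 / 2) ^ (2 * k + 1) = -∑ k ∈ range n, T k := by
    rw [← Finset.sum_sub_distrib, ← Finset.sum_neg_distrib]
    apply Finset.sum_congr rfl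
    intro k _
    rw [hT]
    simp only
    have e3 : 2 * (k + 1) = 2 * k + 2 := by ring
    rw [e3, pow_add, pow_add]
    ring
  have hsumT : (if w.count true ≤ w.count false then (1 / 2 : ℚ) ^ n else 0) ≤
      ∑ k ∈ range n, T k := by
    split_ifs with hc
    · have hpos : 0 < w.count true := List.count_pos_iff.2 hw
      obtain ⟨k, hk⟩ : ∃ k, w.count true = k + 1 := ⟨w.count true - 1, by omega⟩
      have hlen : n = w.count true + w.count false := len_eq w
      have hkn : k ∈ range n := Finset.mem_range.2 (by omega)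
      refine le_trans ?_ (Finset.single_le_sum (f := T) (fun k _ => hT0 k) hkn)
      have q1 : Q W (k + 1) (k + 1) = 0 := by
        unfold Q
        rw [Finset.card_eq_zero, Finset.filter_eq_empty_iff]
        intro u hu h5
        have := h3 w u hu
        omega
      have q2 : 1 ≤ Q W k (k + 1) := by
        obtain ⟨u, hu, h5, h6⟩ := h4 w (k + 1) hw (by omega)
        unfold Q
        rw [Nat.succ_le_iff, Finset.card_pos]
        exact ⟨u, Finset.mem_filter.2 ⟨hu, by omega, h6⟩⟩
      have q2' : (1 : ℚ) ≤ Q W k (k + 1) := by exact_mod_cast q2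
      rw [hT]
      simp only
      rw [q1]
      have h5 : (1 / 2 : ℚ) ^ n ≤ (1 / 2) ^ (2 * k + 2) :=
        pow_le_pow_of_le_one (by norm_num) (by norm_num) (by omega)
      have h6 : (0 : ℚ) < (1 / 2) ^ (2 * k + 2) := by positivity
      calc (1 / 2 : ℚ) ^ n ≤ (1 / 2) ^ (2 * k + 2) * 1 := by rw [mul_one]; exact h5
        _ ≤ (1 / 2) ^ (2 * k + 2) * (2 * (Q W k (k + 1) : ℚ) - ((0 : ℕ) : ℚ)) := by
          apply mul_le_mul_of_nonneg_left _ h6.le
          push_cast
          linarith
    · exact Finset.sum_nonneg fun k _ => hT0 k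
  have e0 : (Q W 0 0 : ℚ) * (1 / 2) ^ (2 * 0) = Q W 0 0 := by norm_num
  rw [e0]
  linarith

end Pool.Agent.W320.TD
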